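import Pool.Agent.TH890.P3.Fin

set_option autoImplicit false

/-!
# Even values of the number of `t`-multipartitions, `t` an odd multiple of 3 (MP_a3366f_nt)

For every `t ≡ 3 (mod 6)` and every residue class `ρ` modulo `2 ^ b`, at least
`√x log x / (1000 * 2 ^ b * 9 ^ (2 ^ b))` of the integers `n ≤ x` lie in the class and have an even
number of `t`-multipartitions; this holds for all `x ≥ 2 ^ 132`, uniformly for
`t ≤ (log x) ^ 2 / 200` and `2 ^ b ≤ log x / 50`.

The case `gcd (t, 6) = 1` is in the starting file `EvenValues`; its method (pentagonal numbers, the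
integers `8 n + m` divisible by a high power of 3) fails for `3 ∣ t`, since the sum over the
triangular numbers which replaces it also runs over the `u` divisible by 3. Let `t = 3 s`,
`M = 2 ^ (2 σ - 1)`, and let `c(k)` be the coefficients of `D ^ (-s)`, `D` the discriminant modulo 2;
so `c(8 n - s)` is the parity of `p_t(n)`. With the Hecke operator `T_3` acting on the Laurent
polynomials in `D` (in particular on negative powers) the following identity is proved: if
`3 ∤ r`, `n = 2 ^ b` and `N = 3 ^ (2 ^ σ - n) r`, then the sums over the `u` coprime to 6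

  `∑ c(N - M u ^ 2)` and `∑ c(9 ^ n N - M u ^ 2)`

have the same parity. For many `r` the numbers of the terms have different parities, and so one of
the terms is even.
-/

namespace Pool.Agent.Results.MP_a3366f_nt.EvenValuesMultiplesOfThree

theorem result (x t b ρ : ℕ) (hx : 2 ^ 132 ≤ x) (ht : t % 6 = 3)
    (hxt : 200 * (t : ℝ) ≤ Real.log x ^ 2) (hb : 50 * (2 : ℝ) ^ b ≤ Real.log x) :
    Real.sqrt x * Real.log x / (1000 * 2 ^ b * 9 ^ 2 ^ b) ≤
      (((Finset.range (x + 1)).filter (fun n => n % 2 ^ b = ρ % 2 ^ b ∧
        Even (∑ y ∈ Finset.Nat.antidiagonalTuple t n,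
          ∏ i, Fintype.card (Nat.Partition (y i))))).card : ℝ) :=
  Pool.Agent.TH890.P3.main3 x t b ρ hx ht hxt hb

end Pool.Agent.Results.MP_a3366f_nt.EvenValuesMultiplesOfThree
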