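import Pool.Agent.TH693.PP.Combo

set_option autoImplicit false

/-!
# Linear patterns in the parity of `t`-multipartitions, `t` odd (MP_a3366f_nt)

Let `a n` be the number of `t`-multipartitions of `n` modulo 2, `t` odd. For every `L`, every
nonzero `c : Fin (L + 1) → ZMod 2`, every `κ : ZMod 2` and every `A`, the equation
`∑ c i * a (n + i) = κ` has a solution `n` with `A ≤ n ≤ 64 * (A + 2 * L + 2)`. Equivalently the
blocks `(a n, …, a (n + L))`, `n` in that interval, lie in no affine hyperplane.

Method. Let `P = ∑ p n X ^ n`, `E = 1 / P`, `T = E ^ 3`, all modulo 2, and let a subscript 3 be the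
substitution `X → X ^ 3`. The modular equation of level 3 for the discriminant modulo 2 gives
`T ^ 4 = T T₃ + X T₃ ^ 4`, so `D (T T₃) = T₃ ^ 4` for the derivative `D`, and `G = (P P₃) ^ t`
satisfies `T T₃ D G = T₃ ^ 4 G`. If `V P ^ t ≡ U (mod X ^ N)`, then with `W = U U₃ V V₃` this gives
`D W T ^ 4 + D (X W) T₃ ^ 4 ≡ 0 (mod X ^ (N - 1))`. Splitting `W` according to exponents modulo 4
gives polynomials `ε, γ`, of degree at most `deg W / 4`, with `ε T + γ T₃ ≡ 0 (mod X ^ (N / 4))`.
The function `T₃ / T` satisfies two polynomial congruences (one from the modular equation, one from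
its image under `X → X ^ 3`) whose resultant is a nonzero polynomial of bounded degree; this bounds
`N / 4` by a multiple of `deg W`. A run of equal values of a linear pattern is a rational
approximation of `P ^ t`.
-/

namespace Pool.Agent.Results.MP_a3366f_nt.LinearPatterns

/-- the number of `t`-multipartitions of `n`: the coefficient of `q ^ n` in `∏ 1 / (1 - q ^ i) ^ t` -/
def multipartitions (t n : ℕ) : ℕ :=
  ∑ x ∈ Finset.Nat.antidiagonalTuple t n, ∏ i, Fintype.card (Nat.Partition (x i))

theorem result (t : ℕ) (ht : Odd t) (L : ℕ) (c : Fin (L + 1) → ZMod 2) (hc : c ≠ 0) (κ : ZMod 2)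
    (A : ℕ) :
    ∃ n, A ≤ n ∧ n ≤ 64 * (A + 2 * L + 2) ∧
      ∑ i : Fin (L + 1), c i * (multipartitions t (n + i) : ZMod 2) = κ := by
  obtain ⟨n, h1, h2, h3⟩ := Pool.Agent.TH693.PP.takes (by norm_num) (Pool.Agent.TH693.PP.bd_odd ht)
    L c hc κ A
  refine ⟨n, h1, h2, ?_⟩
  rw [← h3]
  refine Finset.sum_congr rfl fun i _ => ?_
  have := Pool.Agent.H413R3.Part.coeff_pow_eq t (n + i)
  unfold Pool.Agent.TH693.PP.P
  rw [this]
  rfl

end Pool.Agent.Results.MP_a3366f_nt.LinearPatterns
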