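import Pool.Agent.TH693.QQ.Main4
import Pool.Agent.TH693.QQ.QD1

set_option autoImplicit false

/-!
# The parity of multipartition numbers in progressions and intervals of linear length (MP_a3366f_nt)

Let `t` be odd, `M > 0` and `r` such that `M` is a power of 2 or some `p_t (M * n + r)` is odd. There
is a constant `C` such that for every `L`, every nonzero `c : Fin (L + 1) → ZMod 2`, every
`κ : ZMod 2` and every `A` the equation `∑ c i * p_t (M * (n + i) + r) = κ` modulo 2 has a solution
`n` with `A ≤ n ≤ C * (A + L + 1)`.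

The method is described in `Results/MP_ebc808_nt/ShortIntervalsProgressions` (the case `t = 1`).
-/

namespace Pool.Agent.Results.MP_a3366f_nt.ShortIntervalsProgressions

/-- the number of `t`-multipartitions of `n`: the coefficient of `q ^ n` in `∏ 1 / (1 - q ^ i) ^ t` -/
def multipartitions (t n : ℕ) : ℕ :=
  ∑ x ∈ Finset.Nat.antidiagonalTuple t n, ∏ i, Fintype.card (Nat.Partition (x i))

theorem result (t : ℕ) (ht : Odd t) (M r : ℕ) (hM : 0 < M)
    (h : (∃ k, M = 2 ^ k) ∨ ∃ n, Odd (multipartitions t (M * n + r))) :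
    ∃ C : ℕ, ∀ (L : ℕ) (c : Fin (L + 1) → ZMod 2), c ≠ 0 → ∀ (κ : ZMod 2) (A : ℕ),
      ∃ n, A ≤ n ∧ n ≤ C * (A + L + 1) ∧
        ∑ i : Fin (L + 1), c i * (multipartitions t (M * (n + i) + r) : ZMod 2) = κ :=
  Pool.Agent.TH693.QQ.final_mp Pool.Agent.TH693.QQ.D1.qd1 ht M r hM h

end Pool.Agent.Results.MP_a3366f_nt.ShortIntervalsProgressions
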